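import Pool.Agent.W8.ST.Stm

set_option autoImplicit false

namespace Pool.Agent.W577.ST

open Pool.Agent.W8.ST

theorem exists_shift (a T : ℝ) (hT : 0 < T) : ∃ m : ℤ, 0 ≤ a + T * m ∧ a + T * m ≤ T := by
  refine ⟨-⌊a / T⌋, ?_, ?_⟩
  · have h := Int.floor_le (a / T)
    have h2 : T * (⌊a / T⌋ : ℝ) ≤ a := by
      calc T * (⌊a / T⌋ : ℝ) ≤ T * (a / T) := mul_le_mul_of_nonneg_left h hT.le
        _ = a := by field_simp
    push_cast
    linarith
  · have h := Int.lt_floor_add_one (a / T)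
    have h2 : a ≤ T * ((⌊a / T⌋ : ℝ) + 1) := by
      calc a = T * (a / T) := by field_simp
        _ ≤ T * ((⌊a / T⌋ : ℝ) + 1) := mul_le_mul_of_nonneg_left h.le hT.le
    push_cast
    linarith

theorem abs_sgn (n : ℤ) (a : ℝ) : |(-1 : ℝ) ^ n * a| = |a| := by
  rw [abs_mul, abs_zpow, abs_neg, abs_one, one_zpow, one_mul]

theorem g0 (m n k : ℤ) (x : V 4) : gam1 m n k x 0 = x 0 := rfl
theorem g1 (m n k : ℤ) (x : V 4) : gam1 m n k x 1 = (-1 : ℝ) ^ n * x 1 + 2 * Real.pi * m := rfl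
theorem g2 (m n k : ℤ) (x : V 4) : gam1 m n k x 2 = x 2 + Real.pi * n := rfl
theorem g3 (m n k : ℤ) (x : V 4) : gam1 m n k x 3 = (-1 : ℝ) ^ n * x 3 + 2 * Real.pi * k := rfl

theorem gam1_dist (m n k : ℤ) (x y : V 4) : dist (gam1 m n k x) (gam1 m n k y) ≤ dist x y := by
  rw [dist_pi_le_iff dist_nonneg]
  intro i
  have hi : |x i - y i| ≤ dist x y := by
    rw [← Real.dist_eq]
    exact dist_le_pi_dist x y i
  rw [Real.dist_eq]
  fin_cases i
  · show |gam1 m n k x 0 - gam1 m n k y 0| ≤ _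
    rw [g0, g0]
    exact hi
  · show |gam1 m n k x 1 - gam1 m n k y 1| ≤ _
    rw [g1, g1]
    have : (-1 : ℝ) ^ n * x 1 + 2 * Real.pi * m - ((-1 : ℝ) ^ n * y 1 + 2 * Real.pi * m) =
      (-1 : ℝ) ^ n * (x 1 - y 1) := by ring
    rw [this, abs_sgn]
    exact hi
  · show |gam1 m n k x 2 - gam1 m n k y 2| ≤ _
    rw [g2, g2]
    have : x 2 + Real.pi * n - (y 2 + Real.pi * n) = x 2 - y 2 := by ring
    rw [this]
    exact hi
  · show |gam1 m n k x 3 - gam1 m n k y 3| ≤ _
    rw [g3, g3]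
    have : (-1 : ℝ) ^ n * x 3 + 2 * Real.pi * k - ((-1 : ℝ) ^ n * y 3 + 2 * Real.pi * k) =
      (-1 : ℝ) ^ n * (x 3 - y 3) := by ring
    rw [this, abs_sgn]
    exact hi

/-- an integer shift which moves `a` into distance one of `b` is bounded -/
theorem shift_bound (T a b : ℝ) (hT : 1 ≤ T) (m : ℤ) (h : |a + T * m - b| ≤ 1) :
    |(m : ℝ)| ≤ 1 + |a| + |b| := by
  have h1 : |T * (m : ℝ)| ≤ 1 + |a| + |b| := by
    have h2 : T * (m : ℝ) = (a + T * m - b) + (-a) + b := by ring
    rw [h2]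
    refine (abs_add_le _ _).trans ?_
    have h3 := abs_add_le (a + T * m - b) (-a)
    rw [abs_neg] at h3
    linarith
  rw [abs_mul, abs_of_nonneg (by linarith : (0 : ℝ) ≤ T)] at h1
  have h4 := abs_nonneg (m : ℝ)
  nlinarith

theorem Pro1_proof : Pro1 := by
  intro hD
  have hpi := Real.pi_gt_three
  refine ⟨?_, ?_, ?_⟩
  · intro γ hγ x _ hx
    obtain ⟨m, n, k, h⟩ := hD.1 γ hγ
    rw [h x] at hx
    have h2 := congrFun hx 2
    rw [g2] at h2
    have hn : (n : ℝ) = 0 := by
      have : Real.pi * (n : ℝ) = 0 := by linarith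
      rcases mul_eq_zero.1 this with h3 | h3
      · linarith
      · exact h3
    have hn' : n = 0 := by exact_mod_cast hn
    subst hn'
    have h1 := congrFun hx 1
    rw [g1, zpow_zero, one_mul] at h1
    have hm : (m : ℝ) = 0 := by
      have : Real.pi * (m : ℝ) = 0 := by linarith
      rcases mul_eq_zero.1 this with h3 | h3
      · linarith
      · exact h3
    have hm' : m = 0 := by exact_mod_cast hm
    subst hm'
    have h3 := congrFun hx 3
    rw [g3, zpow_zero, one_mul] at h3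
    have hk : (k : ℝ) = 0 := by
      have : Real.pi * (k : ℝ) = 0 := by linarith
      rcases mul_eq_zero.1 this with h3 | h3
      · linarith
      · exact h3
    have hk' : k = 0 := by exact_mod_cast hk
    subst hk'
    apply Equiv.ext
    intro y
    rw [h y]
    show gam1 0 0 0 y = y
    funext i
    fin_cases i
    · exact g0 0 0 0 y
    · show gam1 0 0 0 y 1 = y 1
      rw [g1]; simp
    · show gam1 0 0 0 y 2 = y 2
      rw [g2]; simp
    · show gam1 0 0 0 y 3 = y 3
      rw [g3]; simp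
  · intro x _ y _
    -- the box of the indices
    obtain ⟨N, hN⟩ := exists_nat_ge (1 + |x 1| + |y 1| + (|x 2| + |y 2|) + (|x 3| + |y 3|))
    set B : Set (ℤ × ℤ × ℤ) := Set.Icc (-(N : ℤ)) N ×ˢ (Set.Icc (-(N : ℤ)) N ×ˢ Set.Icc (-(N : ℤ)) N)
      with hB
    have hBf : B.Finite := (Set.finite_Icc _ _).prod ((Set.finite_Icc _ _).prod (Set.finite_Icc _ _))
    set S : Set (V 4) := ((fun t : ℤ × ℤ × ℤ => gam1 t.1 t.2.1 t.2.2 x) '' B) \ {y} with hS
    have hSf : S.Finite := (hBf.image _).subset Set.sdiff_subset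
    have hSc : IsOpen Sᶜ := hSf.isClosed.isOpen_compl
    have hyS : y ∈ Sᶜ := fun h => h.2 rfl
    obtain ⟨ε, hε, hball⟩ := Metric.isOpen_iff.1 hSc y hyS
    have hmem : ∀ m n k : ℤ, dist (gam1 m n k x) y ≤ 1 → (m, n, k) ∈ B := by
      intro m n k h
      have hc : ∀ i, |gam1 m n k x i - y i| ≤ 1 := by
        intro i
        rw [← Real.dist_eq]
        exact (dist_le_pi_dist _ _ i).trans h
      have c1 := hc 1
      have c2 := hc 2
      have c3 := hc 3
      rw [g1] at c1
      rw [g2] at c2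
      rw [g3] at c3
      have b1 := shift_bound (2 * Real.pi) ((-1 : ℝ) ^ n * x 1) (y 1) (by linarith) m c1
      have b2 := shift_bound Real.pi (x 2) (y 2) (by linarith) n c2
      have b3 := shift_bound (2 * Real.pi) ((-1 : ℝ) ^ n * x 3) (y 3) (by linarith) k c3
      rw [abs_sgn] at b1 b3
      have p1 := abs_nonneg (x 1)
      have p2 := abs_nonneg (x 2)
      have p3 := abs_nonneg (x 3)
      have q1 := abs_nonneg (y 1)
      have q2 := abs_nonneg (y 2)
      have q3 := abs_nonneg (y 3)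
      have key : ∀ m : ℤ, |(m : ℝ)| ≤ N → m ∈ Set.Icc (-(N : ℤ)) N := by
        intro m hm
        rw [abs_le] at hm
        constructor
        · have := hm.1
          exact_mod_cast this
        · have := hm.2
          exact_mod_cast this
      exact ⟨key m (by linarith), key n (by linarith), key k (by linarith)⟩
    set δ : ℝ := min ε 1 with hδ
    have hδ0 : 0 < δ := lt_min hε one_pos
    have hsep : ∀ m n k : ℤ, gam1 m n k x ≠ y → δ ≤ dist (gam1 m n k x) y := by
      intro m n k hne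
      by_contra hlt
      rw [not_le] at hlt
      have h1 : dist (gam1 m n k x) y ≤ 1 := hlt.le.trans (min_le_right _ _)
      have h2 : gam1 m n k x ∈ S := ⟨⟨(m, n, k), hmem m n k h1, rfl⟩, hne⟩
      have h3 : gam1 m n k x ∈ Metric.ball y ε := lt_of_lt_of_le hlt (min_le_left _ _)
      exact hball h3 h2
    refine ⟨Metric.ball x (δ / 2), Metric.ball y (δ / 2), Metric.isOpen_ball, Metric.isOpen_ball,
      Metric.mem_ball_self (by positivity), Metric.mem_ball_self (by positivity), ?_⟩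
    intro γ hγ hne
    obtain ⟨m, n, k, h⟩ := hD.1 γ hγ
    rw [Set.disjoint_left]
    rintro z ⟨x', hx', rfl⟩ hz
    rw [h x] at hne
    have h1 := hsep m n k hne
    have h2 := gam1_dist m n k x x'
    rw [Metric.mem_ball] at hx' hz
    rw [h x'] at hz
    have h3 := dist_triangle (gam1 m n k x) (gam1 m n k x') y
    rw [dist_comm x x'] at h2
    linarith
  · refine ⟨Set.pi Set.univ (fun _ : Fin 4 => Set.Icc (-(2 * Real.pi)) (2 * Real.pi)),
      isCompact_univ_pi (fun _ => isCompact_Icc), ?_⟩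
    intro x hx
    have hx0 : |x 0| ≤ 1 := hx
    obtain ⟨n, hn1, hn2⟩ := exists_shift (x 2) Real.pi (by linarith)
    obtain ⟨m, hm1, hm2⟩ := exists_shift ((-1 : ℝ) ^ n * x 1) (2 * Real.pi) (by linarith)
    obtain ⟨k, hk1, hk2⟩ := exists_shift ((-1 : ℝ) ^ n * x 3) (2 * Real.pi) (by linarith)
    obtain ⟨γ, hγ, h⟩ := hD.2.1 m n k
    refine ⟨γ, hγ, ?_⟩
    rw [h x]
    intro i _
    rw [abs_le] at hx0
    fin_cases i
    · show gam1 m n k x 0 ∈ Set.Icc (-(2 * Real.pi)) (2 * Real.pi)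
      rw [g0]
      exact ⟨by linarith, by linarith⟩
    · show gam1 m n k x 1 ∈ Set.Icc (-(2 * Real.pi)) (2 * Real.pi)
      rw [g1]
      exact ⟨by linarith, by linarith⟩
    · show gam1 m n k x 2 ∈ Set.Icc (-(2 * Real.pi)) (2 * Real.pi)
      rw [g2]
      exact ⟨by linarith, by linarith⟩
    · show gam1 m n k x 3 ∈ Set.Icc (-(2 * Real.pi)) (2 * Real.pi)
      rw [g3]
      exact ⟨by linarith, by linarith⟩

end Pool.Agent.W577.ST

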